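import Pool.Agent.H68.AC.Targets

/-!
# Product weights: total mass, swapping coordinates (SETH for constant-depth circuits)
-/

namespace Pool.Agent.H90.AC

open Finset Pool.Agent.H68.AC

theorem sum_w1 (q p : ℝ) : ∑ a : Option Bool, w1 q p a = 1 := by
  rw [Fintype.sum_option]
  simp [w1]
  ring

theorem w1_nonneg {q p : ℝ} (hq : 0 ≤ q) (hq1 : q ≤ 1) (hp : 0 ≤ p) (hp1 : p ≤ 1) (a : Option Bool) :
    0 ≤ w1 q p a := by
  rcases a with _ | _ | _
  · exact hq
  · exact mul_nonneg (by linarith) (by linarith)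
  · exact mul_nonneg (by linarith) hp

theorem wt_nonneg {V : Type} [Fintype V] {q p : ℝ} (hq : 0 ≤ q) (hq1 : q ≤ 1) (hp : 0 ≤ p)
    (hp1 : p ≤ 1) (R : PA V) : 0 ≤ wt q p R :=
  prod_nonneg fun _ _ => w1_nonneg hq hq1 hp hp1 _

theorem Wt_nonneg {V : Type} [Fintype V] {d : ℕ} {q p : ℝ} (hq : 0 ≤ q) (hq1 : q ≤ 1) (hp : 0 ≤ p)
    (hp1 : p ≤ 1) (R : Fin d → PA V) : 0 ≤ Wt q p R :=
  prod_nonneg fun _ _ => wt_nonneg hq hq1 hp hp1 _

theorem wz_nonneg {V : Type} [Fintype V] {p : ℝ} (hp : 0 ≤ p) (hp1 : p ≤ 1) (z : V → Bool) :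
    0 ≤ wz p z := by
  refine prod_nonneg fun v _ => ?_
  split_ifs
  · exact hp
  · linarith

/-- The sum over all functions of a product is the product of the sums. -/
theorem sum_fun_prod {ι α : Type} [Fintype ι] [DecidableEq ι] [Fintype α] (f : ι → α → ℝ) :
    ∑ x : ι → α, ∏ i, f i (x i) = ∏ i, ∑ a, f i a := by
  rw [prod_univ_sum, Fintype.piFinset_univ]

theorem sum_wt {V : Type} [Fintype V] [DecidableEq V] (q p : ℝ) : ∑ R : PA V, wt q p R = 1 := by
  have := sum_fun_prod (ι := V) (fun _ a => w1 q p a)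
  simp only [sum_w1, prod_const_one] at this
  exact this

theorem sum_Wt {V : Type} [Fintype V] [DecidableEq V] {d : ℕ} (q p : ℝ) :
    ∑ R : Fin d → PA V, Wt q p R = 1 := by
  have := sum_fun_prod (ι := Fin d) (fun _ (R : PA V) => wt q p R)
  simp only [sum_wt, prod_const_one] at this
  exact this

theorem sum_wz {V : Type} [Fintype V] [DecidableEq V] (p : ℝ) : ∑ z : V → Bool, wz p z = 1 := by
  have := sum_fun_prod (ι := V) (fun _ (b : Bool) => if b then p else 1 - p)
  simp only [Fintype.sum_bool, if_true, Bool.false_eq_true, if_false, add_sub_cancel,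
    prod_const_one] at this
  exact this

/-- Resampling one round. -/
theorem resample {V : Type} [Fintype V] [DecidableEq V] {d : ℕ} (q p : ℝ) (j : Fin d)
    (F : (Fin d → PA V) → ℝ) :
    ∑ R, Wt q p R * F R = ∑ R, Wt q p R * ∑ Q : PA V, wt q p Q * F (Function.update R j Q) := by
  have h1 : ∑ x : (Fin d → PA V) × PA V, Wt q p x.1 * (wt q p x.2 * F x.1) =
      ∑ x : (Fin d → PA V) × PA V, Wt q p x.1 * (wt q p x.2 * F (Function.update x.1 j x.2)) := by
    refine Finset.sum_bij' (fun x _ => (Function.update x.1 j x.2, x.1 j))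
      (fun x _ => (Function.update x.1 j x.2, x.1 j)) (fun _ _ => mem_univ _) (fun _ _ => mem_univ _)
      ?_ ?_ ?_
    · rintro ⟨R, Q⟩ _
      simp
    · rintro ⟨R, Q⟩ _
      simp
    · rintro ⟨R, Q⟩ _
      have h2 : Wt q p R * wt q p Q = Wt q p (Function.update R j Q) * wt q p (R j) := by
        have e1 : Wt q p R = wt q p (R j) * ∏ i ∈ univ.erase j, wt q p (R i) :=
          (mul_prod_erase univ (fun i => wt q p (R i)) (mem_univ j)).symm
        have e2 : Wt q p (Function.update R j Q) = wt q p Q * ∏ i ∈ univ.erase j, wt q p (R i) := by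
          rw [Wt, ← mul_prod_erase univ _ (mem_univ j)]
          congr 1
          · simp
          · refine prod_congr rfl fun i hi => ?_
            rw [Function.update_of_ne (ne_of_mem_erase hi)]
        rw [e1, e2]; ring
      simp only [Function.update_idem, Function.update_eq_self]
      rw [← mul_assoc, ← mul_assoc, h2]
  rw [Fintype.sum_prod_type, Fintype.sum_prod_type] at h1
  calc ∑ R, Wt q p R * F R = ∑ R, ∑ Q : PA V, Wt q p R * (wt q p Q * F R) := by
        refine sum_congr rfl fun R _ => ?_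
        rw [← mul_sum, ← sum_mul, sum_wt, one_mul]
    _ = _ := h1
    _ = _ := by
        refine sum_congr rfl fun R _ => ?_
        rw [mul_sum]

end Pool.Agent.H90.AC
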