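import Pool.Agent.H90.AC.W

/-!
# Module FUB: fix all rounds but one
-/

namespace Pool.Agent.H90.AC

open Finset Pool.Agent.H68.AC

theorem FUB : T_FUB := by
  intro V _ _ d q p F j B hq hq1 hp hp1 h
  rw [resample q p j F]
  calc ∑ R, Wt q p R * ∑ Q : PA V, wt q p Q * F (Function.update R j Q) ≤
      ∑ R : Fin d → PA V, Wt q p R * B :=
        sum_le_sum fun R _ => mul_le_mul_of_nonneg_left (h R) (Wt_nonneg hq hq1 hp hp1 R)
    _ = B := by rw [← sum_mul, sum_Wt, one_mul]

end Pool.Agent.H90.AC
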