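import Pool.Agent.H90.AC.W

/-!
# Module IND: conditioning on the entries in `P` being free
-/

namespace Pool.Agent.H90.AC

open Finset Pool.Agent.H68.AC

/-- Exchange the entries in `P`. -/
def pw {V : Type} [DecidableEq V] {d : ℕ} (P : Finset V) (R C : Fin d → PA V) : Fin d → PA V :=
  fun j v => if v ∈ P then C j v else R j v

theorem pw_pw {V : Type} [DecidableEq V] {d : ℕ} (P : Finset V) (R C : Fin d → PA V) :
    pw P (pw P R C) (pw P C R) = R := by
  funext j v
  simp only [pw]
  split_ifs <;> rfl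

theorem Wt_pw {V : Type} [Fintype V] [DecidableEq V] {d : ℕ} (q p : ℝ) (P : Finset V)
    (R C : Fin d → PA V) : Wt q p (pw P R C) * Wt q p (pw P C R) = Wt q p R * Wt q p C := by
  simp only [Wt, wt, ← prod_mul_distrib]
  refine prod_congr rfl fun j _ => prod_congr rfl fun v _ => ?_
  simp only [pw]
  split_ifs
  · exact mul_comm _ _
  · rfl

theorem ind_true {a : Prop} (h : a) : ind a = 1 := by
  classical
  unfold ind; split_ifs; rfl

theorem ind_false {a : Prop} (h : ¬ a) : ind a = 0 := by
  classical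
  unfold ind; split_ifs; rfl

theorem ind_nonneg (a : Prop) : 0 ≤ ind a := by
  by_cases h : a
  · rw [ind_true h]; norm_num
  · rw [ind_false h]

theorem ind_le_one (a : Prop) : ind a ≤ 1 := by
  by_cases h : a
  · rw [ind_true h]
  · rw [ind_false h]; norm_num

theorem ind_mono {a b : Prop} (h : a → b) : ind a ≤ ind b := by
  by_cases ha : a
  · rw [ind_true ha, ind_true (h ha)]
  · rw [ind_false ha]; exact ind_nonneg b

/-- The probability that all entries in `P` are free. -/
theorem sum_ind_none {V : Type} [Fintype V] [DecidableEq V] {d : ℕ} (q p : ℝ) (P : Finset V) :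
    ∑ R : Fin d → PA V, Wt q p R * ind (∀ j, ∀ v ∈ P, R j v = none) = q ^ (d * P.card) := by
  have h1 : ∀ R : Fin d → PA V, Wt q p R * ind (∀ j, ∀ v ∈ P, R j v = none) =
      ∏ j, ∏ v, (w1 q p (R j v) * (if v ∈ P → R j v = none then 1 else 0)) := by
    intro R
    simp only [prod_mul_distrib]
    congr 1
    by_cases h : ∀ j, ∀ v ∈ P, R j v = none
    · rw [ind_true h]
      symm
      refine prod_eq_one fun j _ => prod_eq_one fun v _ => ?_
      rw [if_pos (h j v)]
    · rw [ind_false h]
      push Not at h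
      obtain ⟨j, v, hv, hn⟩ := h
      symm
      refine prod_eq_zero (mem_univ j) (prod_eq_zero (mem_univ v) ?_)
      rw [if_neg]
      intro h'; exact hn (h' hv)
  rw [sum_congr rfl fun R _ => h1 R]
  have h2 := sum_fun_prod (ι := Fin d) (fun _ (R : PA V) =>
    ∏ v, (w1 q p (R v) * (if v ∈ P → R v = none then 1 else 0)))
  have h3 := sum_fun_prod (ι := V) (fun v (a : Option Bool) =>
    (w1 q p a * (if v ∈ P → a = none then 1 else 0)))
  have h4 : ∀ v : V, ∑ a : Option Bool, (w1 q p a * (if v ∈ P → a = none then 1 else 0)) =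
      if v ∈ P then q else 1 := by
    intro v
    by_cases hv : v ∈ P
    · rw [Fintype.sum_option]
      simp [hv, w1]
    · have h6 := sum_w1 q p
      rw [Fintype.sum_option] at h6 ⊢
      simpa [hv] using h6
  simp only [h4, prod_ite_mem, univ_inter, prod_const] at h3
  refine h2.trans ?_
  have h5 : ∑ a : PA V, ∏ v, (w1 q p (a v) * (if v ∈ P → a v = none then 1 else 0)) = q ^ P.card := h3
  rw [h5, prod_const, card_univ, Fintype.card_fin, ← pow_mul, mul_comm]

theorem IND : T_IND := by
  intro V _ _ d q p P F hF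
  rw [← sum_ind_none q p P, sum_mul]
  have h1 : ∑ x : (Fin d → PA V) × (Fin d → PA V),
      (Wt q p x.1 * ind (∀ j, ∀ v ∈ P, x.1 j v = none)) * (Wt q p x.2 * F x.2) =
      ∑ x : (Fin d → PA V) × (Fin d → PA V),
        Wt q p x.1 * (Wt q p x.2 * (ind (∀ j, ∀ v ∈ P, x.2 j v = none) * F x.2)) := by
    refine Finset.sum_bij' (fun x _ => (pw P x.1 x.2, pw P x.2 x.1))
      (fun x _ => (pw P x.1 x.2, pw P x.2 x.1)) (fun _ _ => mem_univ _) (fun _ _ => mem_univ _)
      ?_ ?_ ?_
    · rintro ⟨R, Q⟩ _
      simp [pw_pw]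
    · rintro ⟨R, Q⟩ _
      simp [pw_pw]
    · rintro ⟨R, Q⟩ _
      have e1 : F (pw P Q R) = F Q := hF _ _ fun j v hv => by simp [pw, hv]
      have e2 : (∀ j, ∀ v ∈ P, pw P Q R j v = none) ↔ (∀ j, ∀ v ∈ P, R j v = none) := by
        refine forall_congr' fun j => forall_congr' fun v => forall_congr' fun hv => ?_
        simp [pw, hv]
      simp only [e1, e2]
      have := Wt_pw q p P R Q
      linear_combination (-(ind (∀ j, ∀ v ∈ P, R j v = none) * F Q)) * this
  rw [Fintype.sum_prod_type, Fintype.sum_prod_type] at h1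
  calc _ = _ := by
        refine sum_congr rfl fun R _ => ?_
        rw [mul_sum]
    _ = _ := h1
    _ = _ := by
        simp only
        rw [← sum_mul_sum, sum_Wt, one_mul]

end Pool.Agent.H90.AC
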