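import Pool.Agent.H90.AC.W

/-!
# Module PUSH: the merged rounds are `p`-biased
-/

namespace Pool.Agent.H90.AC

open Finset Pool.Agent.H68.AC

/-- One round. -/
theorem push_one {V : Type} [Fintype V] [DecidableEq V] (q p : ℝ) (G : (V → Bool) → ℝ) :
    ∑ Q : PA V, wt q p Q * ∑ z : V → Bool, wz p z * G (fun v => (Q v).getD (z v)) =
      ∑ z : V → Bool, wz p z * G z := by
  have h1 : ∀ (Q : PA V) (z : V → Bool), G (fun v => (Q v).getD (z v)) =
      ∑ y : V → Bool, (∏ v, if (Q v).getD (z v) = y v then (1 : ℝ) else 0) * G y := by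
    intro Q z
    rw [Finset.sum_eq_single (fun v => (Q v).getD (z v))]
    · simp
    · intro y _ hy
      obtain ⟨v, hv⟩ := Function.ne_iff.1 hy
      rw [prod_eq_zero (mem_univ v) (if_neg (Ne.symm hv)), zero_mul]
    · intro h; exact absurd (mem_univ _) h
  have h2 : ∀ y : V → Bool, ∑ Q : PA V, ∑ z : V → Bool,
      wt q p Q * (wz p z * ∏ v, if (Q v).getD (z v) = y v then (1 : ℝ) else 0) = wz p y := by
    intro y
    have e1 : ∀ Q : PA V, ∑ z : V → Bool,
        wt q p Q * (wz p z * ∏ v, if (Q v).getD (z v) = y v then (1 : ℝ) else 0) =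
        ∏ v, ∑ b : Bool, (w1 q p (Q v) * ((if b then p else 1 - p) *
          if (Q v).getD b = y v then (1 : ℝ) else 0)) := by
      intro Q
      rw [← sum_fun_prod (ι := V) (fun v (b : Bool) => (w1 q p (Q v) * ((if b then p else 1 - p) *
          if (Q v).getD b = y v then (1 : ℝ) else 0)))]
      refine sum_congr rfl fun z _ => ?_
      rw [prod_mul_distrib, prod_mul_distrib]
      rfl
    rw [sum_congr rfl fun Q _ => e1 Q]
    refine (sum_fun_prod (ι := V) (fun v (a : Option Bool) => ∑ b : Bool, (w1 q p a *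
      ((if b then p else 1 - p) * if a.getD b = y v then (1 : ℝ) else 0)))).trans ?_
    refine prod_congr rfl fun v _ => ?_
    rw [Fintype.sum_option]
    simp only [Fintype.sum_bool, w1, Option.getD_none, Option.getD_some]
    cases y v
    · simp; ring
    · simp; ring
  calc ∑ Q : PA V, wt q p Q * ∑ z : V → Bool, wz p z * G (fun v => (Q v).getD (z v)) =
      ∑ Q : PA V, ∑ z : V → Bool, ∑ y : V → Bool,
        (wt q p Q * (wz p z * ∏ v, if (Q v).getD (z v) = y v then (1 : ℝ) else 0)) * G y := by
        refine sum_congr rfl fun Q _ => ?_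
        rw [mul_sum]
        refine sum_congr rfl fun z _ => ?_
        rw [h1, mul_sum, mul_sum]
        refine sum_congr rfl fun y _ => ?_
        ring
    _ = ∑ y : V → Bool, ∑ Q : PA V, ∑ z : V → Bool,
        (wt q p Q * (wz p z * ∏ v, if (Q v).getD (z v) = y v then (1 : ℝ) else 0)) * G y := by
        rw [sum_congr rfl fun Q _ => sum_comm]
        exact sum_comm
    _ = _ := by
        refine sum_congr rfl fun y _ => ?_
        rw [← h2 y, sum_mul]
        refine sum_congr rfl fun Q _ => ?_
        rw [sum_mul]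

theorem push_aux {V : Type} [Fintype V] [DecidableEq V] (d : ℕ) (q p : ℝ) (F : (V → Bool) → ℝ)
    (j : ℕ) (hj : j ≤ d) :
    ∑ R : Fin d → PA V, Wt q p R * ∑ z : V → Bool, wz p z * F (fun v => (fd R j v).getD (z v)) =
      ∑ z : V → Bool, wz p z * F z := by
  induction j with
  | zero =>
    simp only [fd, Option.getD_none]
    rw [← sum_mul, sum_Wt, one_mul]
  | succ j ih =>
    rw [resample q p ⟨j, hj⟩]
    rw [← ih (by omega)]
    refine sum_congr rfl fun R _ => ?_
    congr 1
    rw [← push_one q p (fun y => F (fun v => (fd R j v).getD (y v)))]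
    refine sum_congr rfl fun Q _ => ?_
    congr 1
    refine sum_congr rfl fun z _ => ?_
    congr 2
    funext v
    have e1 : fd (Function.update R ⟨j, hj⟩ Q) j v = fd R j v := by
      refine fd_congr _ _ j v fun i hi => ?_
      rw [Function.update_of_ne]
      intro h
      rw [h] at hi
      exact absurd hi (lt_irrefl _)
    rw [fd_succ _ j hj]
    simp only [mrg, e1, Function.update_self]
    cases fd R j v <;> rfl

theorem PUSH : T_PUSH := by
  intro V _ _ d q p F
  rw [← push_aux d q p F d le_rfl]
  refine sum_congr rfl fun R _ => ?_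
  rw [mul_sum]
  refine sum_congr rfl fun z _ => ?_
  ring

end Pool.Agent.H90.AC
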