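import Pool.Agent.H90.AC.IND

/-!
# Module U: there is usually no second solution
-/

namespace Pool.Agent.H90.AC

open Finset Pool.Agent.H68.AC

/-- The probability that all variables of `S` are true. -/
theorem sum_ind_true {V : Type} [Fintype V] [DecidableEq V] (p : ℝ) (S : Finset V) :
    ∑ z : V → Bool, wz p z * ind (∀ v ∈ S, z v = true) = p ^ S.card := by
  have h1 : ∀ z : V → Bool, wz p z * ind (∀ v ∈ S, z v = true) =
      ∏ v, ((if z v then p else 1 - p) * (if v ∈ S → z v = true then 1 else 0)) := by
    intro z
    rw [prod_mul_distrib]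
    congr 1
    by_cases h : ∀ v ∈ S, z v = true
    · rw [ind_true h]
      symm
      refine prod_eq_one fun v _ => ?_
      rw [if_pos (h v)]
    · rw [ind_false h]
      push Not at h
      obtain ⟨v, hv, hn⟩ := h
      symm
      refine prod_eq_zero (mem_univ v) ?_
      rw [if_neg]
      intro h'; exact hn (h' hv)
  rw [sum_congr rfl fun z _ => h1 z]
  rw [sum_fun_prod (ι := V) (fun v (b : Bool) =>
    ((if b then p else 1 - p) * (if v ∈ S → b = true then 1 else 0)))]
  have h4 : ∀ v : V, ∑ b : Bool, ((if b then p else 1 - p) * (if v ∈ S → b = true then 1 else 0)) =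
      if v ∈ S then p else 1 := by
    intro v
    by_cases hv : v ∈ S
    · simp [hv]
    · simp [hv]
  simp only [h4, prod_ite_mem, univ_inter, prod_const]

theorem pos_ne {k r : ℕ} {A : Type} (e : Fin k → Fin r → Fin k) (x x' : Fin k → A) (j : Fin k)
    (h : x' j ≠ x j) : pos e x' j ≠ pos e x j := by
  intro h'
  simp only [pos, Prod.mk.injEq, true_and] at h'
  have := congrFun h' none
  exact h this

theorem U : T_U := by
  intro k r A _ _ e x p hp hp1
  classical
  -- one second solution
  have h1 : ∀ x' : Fin k → A, ∑ z : VV k r A → Bool, wz p z * ind (∀ j, pos e x' j ≠ pos e x j →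
      z (pos e x' j) = true) ≤ ∏ j, (if x' j = x j then 1 else p) := by
    intro x'
    set S : Finset (VV k r A) := (univ.filter (fun j => x' j ≠ x j)).image (pos e x') with hS
    have hc : S.card = (univ.filter (fun j => x' j ≠ x j)).card := by
      rw [hS, card_image_of_injective]
      intro a b hab
      exact congrArg Prod.fst hab
    have h2 : ∏ j, (if x' j = x j then 1 else p) = p ^ S.card := by
      rw [hc, prod_ite, prod_const_one, one_mul, prod_const]
    rw [h2, ← sum_ind_true p S]
    refine sum_le_sum fun z _ => mul_le_mul_of_nonneg_left (ind_mono ?_) (wz_nonneg hp hp1 z)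
    intro h v hv
    rw [hS, mem_image] at hv
    obtain ⟨j, hj, rfl⟩ := hv
    exact h j (pos_ne e x x' j (mem_filter.1 hj).2)
  have h3 : ∀ z : VV k r A → Bool, ind (∃ x', x' ≠ x ∧ ∀ j, pos e x' j ≠ pos e x j →
      z (pos e x' j) = true) ≤ ∑ x' ∈ univ.erase x, ind (∀ j, pos e x' j ≠ pos e x j →
      z (pos e x' j) = true) := by
    intro z
    by_cases h : ∃ x', x' ≠ x ∧ ∀ j, pos e x' j ≠ pos e x j → z (pos e x' j) = true
    · rw [ind_true h]
      obtain ⟨x', hx, h'⟩ := h
      rw [← ind_true h']
      exact single_le_sum (f := fun x' => ind (∀ j, pos e x' j ≠ pos e x j →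
        z (pos e x' j) = true)) (fun _ _ => ind_nonneg _) (mem_erase.2 ⟨hx, mem_univ _⟩)
    · rw [ind_false h]
      exact sum_nonneg fun _ _ => ind_nonneg _
  calc ∑ z : VV k r A → Bool, wz p z * ind (∃ x', x' ≠ x ∧ ∀ j, pos e x' j ≠ pos e x j →
        z (pos e x' j) = true) ≤
      ∑ z : VV k r A → Bool, wz p z * ∑ x' ∈ univ.erase x, ind (∀ j, pos e x' j ≠ pos e x j →
        z (pos e x' j) = true) :=
        sum_le_sum fun z _ => mul_le_mul_of_nonneg_left (h3 z) (wz_nonneg hp hp1 z)
    _ = ∑ x' ∈ univ.erase x, ∑ z : VV k r A → Bool, wz p z * ind (∀ j, pos e x' j ≠ pos e x j →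
        z (pos e x' j) = true) := by
        rw [sum_comm]
        refine sum_congr rfl fun z _ => ?_
        rw [mul_sum]
    _ ≤ ∑ x' ∈ univ.erase x, ∏ j, (if x' j = x j then 1 else p) := sum_le_sum fun x' _ => h1 x'
    _ = ∑ x' : Fin k → A, ∏ j, (if x' j = x j then 1 else p) - 1 := by
        rw [← add_sum_erase univ (fun x' : Fin k → A => ∏ j, (if x' j = x j then 1 else p))
          (mem_univ x)]
        simp
    _ = ∏ j : Fin k, ∑ a : A, (if a = x j then 1 else p) - 1 := by
        rw [sum_fun_prod (ι := Fin k) (fun j (a : A) => if a = x j then 1 else p)]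
    _ ≤ (1 + Fintype.card A * p) ^ k - 1 := by
        have h5 : ∏ j : Fin k, ∑ a : A, (if a = x j then 1 else p) ≤
            ∏ _j : Fin k, (1 + Fintype.card A * p) := by
          refine prod_le_prod (fun j _ => sum_nonneg fun a _ => ?_) fun j _ => ?_
          · split_ifs
            · norm_num
            · exact hp
          · calc ∑ a : A, (if a = x j then 1 else p) ≤ ∑ a : A, ((if a = x j then 1 else 0) + p) := by
                  refine sum_le_sum fun a _ => ?_
                  split_ifs
                  · linarith
                  · linarith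
              _ = 1 + Fintype.card A * p := by
                  rw [sum_add_distrib]
                  simp
        rw [prod_const, card_univ, Fintype.card_fin] at h5
        linarith

end Pool.Agent.H90.AC
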